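import Mathlib

/-!
# Functions of several parities
-/

set_option autoImplicit false
set_option linter.unusedSectionVars false

namespace Q56.PM

section

variable {K : Type*} [Field K] [CharZero K]

/-- The function `f` on the words of length `n` depends on the letter with the number `i`. -/
def Dep (n : ℕ) (f : List Bool → K) (i : ℕ) : Prop :=
  ∃ w : List Bool, w.length = n ∧ f (w.set i true) ≠ f (w.set i false)

lemma set_letter (w : List Bool) (i : ℕ) (hi : i < w.length) : w.set i w[i] = w := by
  simp

lemma indep_set {n : ℕ} {f : List Bool → K} {i : ℕ} (h : ¬ Dep n f i) {w : List Bool}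
    (hw : w.length = n) (b c : Bool) : f (w.set i b) = f (w.set i c) := by
  have h1 : f (w.set i true) = f (w.set i false) := by
    by_contra h2
    exact h ⟨w, hw, h2⟩
  cases b <;> cases c
  · rfl
  · exact h1.symm
  · exact h1
  · rfl

lemma indep_set' {n : ℕ} {f : List Bool → K} {i : ℕ} (h : ¬ Dep n f i) {w : List Bool}
    (hw : w.length = n) (b : Bool) : f (w.set i b) = f w := by
  by_cases hi : i < w.length
  · conv_rhs => rw [← set_letter w i hi]
    exact indep_set h hw _ _
  · rw [List.set_eq_of_length_le (not_lt.1 hi)]

/-- A function which does not depend on any letter is constant. -/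
lemma const_of_indep {n : ℕ} {f : List Bool → K} (h : ∀ i < n, ¬ Dep n f i) {w v : List Bool}
    (hw : w.length = n) (hv : v.length = n) : f w = f v := by
  have key : ∀ k ≤ n, f w = f (v.take k ++ w.drop k) := by
    intro k
    induction k with
    | zero => intro _; simp
    | succ k ih =>
      intro hk
      rw [ih (by omega)]
      have hk' : k < n := by omega
      set u := v.take k ++ w.drop k with hu
      have hul : u.length = n := by
        rw [hu, List.length_append, List.length_take, List.length_drop]
        omega
      have h1 : v.take (k + 1) ++ w.drop (k + 1) = u.set k (v[k]'(by omega)) := by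
        apply List.ext_getElem
        · rw [List.length_set, hul, List.length_append, List.length_take, List.length_drop]
          omega
        · intro m h1 h2
          rw [List.getElem_set]
          by_cases hm : k = m
          · subst hm
            rw [if_pos rfl, List.getElem_append_left (by rw [List.length_take]; omega),
              List.getElem_take]
          · rw [if_neg hm]
            simp only [hu]
            by_cases hm' : m < k
            · rw [List.getElem_append_left (by rw [List.length_take]; omega),
                List.getElem_append_left (by rw [List.length_take]; omega), List.getElem_take,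
                List.getElem_take]
            · rw [List.getElem_append_right (by rw [List.length_take]; omega),
                List.getElem_append_right (by rw [List.length_take]; omega), List.getElem_drop,
                List.getElem_drop]
              congr 1
              rw [List.length_take, List.length_take]
              omega
      rw [h1, indep_set' (h k hk') hul]
  have h2 := key n le_rfl
  rwa [List.take_of_length_le (by omega), List.drop_of_length_le (by omega), List.append_nil] at h2

/-- The partial trace. -/
def eop (p q : K) (j : ℕ) (f : List Bool → K) : List Bool → K :=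
  fun w => p * f (w.set j true) - q * f (w.set j false)

/-- The closure properties of the set of the algebraic functions. -/
structure Closed (n : ℕ) (p q : ℕ → ℕ) (S : (List Bool → K) → Prop) : Prop where
  congr : ∀ f g, (∀ w : List Bool, w.length = n → f w = g w) → S f → S g
  one : S fun _ => 1
  add : ∀ f g, S f → S g → S fun w => f w + g w
  smul : ∀ (c : K) f, S f → S fun w => c * f w
  mul : ∀ f g, S f → S g → S fun w => f w * g w
  tr : ∀ j < n, ∀ f, S f → S (eop (p j : K) (q j : K) j f)

variable {n : ℕ} {p q : ℕ → ℕ} {S : (List Bool → K) → Prop}

lemma Closed.poly (hS : Closed n p q S) {f : List Bool → K} (h : S f) (P : Polynomial K) :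
    S fun w => P.eval (f w) := by
  induction P using Polynomial.induction_on with
  | C c =>
    simp only [Polynomial.eval_C]
    exact hS.congr _ _ (fun w _ => mul_one c) (hS.smul c _ hS.one)
  | add P Q hP hQ =>
    simp only [Polynomial.eval_add]
    exact hS.add _ _ hP hQ
  | monomial m c hP =>
    refine hS.congr _ _ (fun w _ => ?_) (hS.mul _ _ hP h)
    simp only [Polynomial.eval_mul, Polynomial.eval_C, Polynomial.eval_pow, Polynomial.eval_X]
    ring

/-- All words of a given length. -/
def words : ℕ → Finset (List Bool)
  | 0 => {[]}
  | n + 1 => (words n).image (List.cons true) ∪ (words n).image (List.cons false)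

lemma mem_words (n : ℕ) (w : List Bool) : w ∈ words n ↔ w.length = n := by
  induction n generalizing w with
  | zero => simp [words]
  | succ n ih =>
    rw [words, Finset.mem_union, Finset.mem_image, Finset.mem_image]
    constructor
    · rintro (⟨v, hv, rfl⟩ | ⟨v, hv, rfl⟩) <;> simp [(ih v).1 hv]
    · rcases w with _ | ⟨b, v⟩
      · intro h; simp at h
      · intro h
        have hv : v ∈ words n := (ih v).2 (by simpa using h)
        cases b
        · exact Or.inr ⟨v, hv, rfl⟩
        · exact Or.inl ⟨v, hv, rfl⟩

open Classical in
lemma Closed.level (hS : Closed n p q S) {f : List Bool → K} (h : S f) (c : K) :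
    S fun w => if f w = c then 1 else 0 := by
  have h1 := hS.poly h (∏ r ∈ ((words n).image f).erase c,
    Polynomial.C ((c - r)⁻¹) * (Polynomial.X - Polynomial.C r))
  refine hS.congr _ _ (fun w hw => ?_) h1
  rw [Polynomial.eval_prod]
  split_ifs with h2
  · refine Finset.prod_eq_one ?_
    intro r hr
    have h3 : c - r ≠ 0 := sub_ne_zero.2 (Ne.symm (Finset.ne_of_mem_erase hr))
    simp only [Polynomial.eval_mul, Polynomial.eval_C, Polynomial.eval_sub, Polynomial.eval_X,
      h2]
    exact inv_mul_cancel₀ h3
  · refine Finset.prod_eq_zero (i := f w) ?_ ?_
    · exact Finset.mem_erase.2 ⟨h2, Finset.mem_image_of_mem f ((mem_words n w).2 hw)⟩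
    · simp

lemma set_comm (w : List Bool) {i j : ℕ} (h : i ≠ j) (a b : Bool) :
    (w.set i a).set j b = (w.set j b).set i a := List.set_comm a b h

open Classical in
/-- The other letters on which a function depends. -/
noncomputable def others (n : ℕ) (f : List Bool → K) (i : ℕ) : Finset ℕ :=
  (Finset.range n).filter fun j => j ≠ i ∧ Dep n f j

/-- **If an algebraic function depends on a letter then this letter is algebraic.** -/
theorem Closed.letter (hS : Closed n p q S) {i : ℕ} (hi : i < n) :
    ∀ (m : ℕ) (f : List Bool → K), S f → Dep n f i → (∀ j < n, Dep n f j → 0 < p j ∧ 0 < q j) →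
      (others n f i).card ≤ m → S fun w => if w[i]?.getD true = true then 1 else 0 := by
  classical
  intro m
  induction m with
  | zero =>
    intro f hf hfi _ hcard
    obtain ⟨w₀, hw₀, hne⟩ := hfi
    have hχ := hS.level hf (f (w₀.set i true))
    refine hS.congr _ _ (fun w hw => ?_) hχ
    have hno : ∀ j < n, j ≠ i → ¬ Dep n f j := by
      intro j hj hji hd
      have h1 : j ∈ others n f i := Finset.mem_filter.2 ⟨Finset.mem_range.2 hj, hji, hd⟩
      rw [Finset.card_eq_zero.1 (Nat.le_zero.1 hcard)] at h1
      exact Finset.notMem_empty _ h1
    have hconst : ∀ b : Bool, f (w.set i b) = f (w₀.set i b) := by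
      intro b
      refine const_of_indep (n := n) (f := fun v => f (v.set i b)) ?_ hw hw₀
      rintro j hj ⟨v, hv, hv'⟩
      by_cases hji : j = i
      · subst hji
        apply hv'
        simp only [List.set_set]
      · apply hno j hj hji
        refine ⟨v.set i b, by rw [List.length_set, hv], ?_⟩
        simp only [set_comm v hji] at hv'
        exact hv'
    have hiw : i < w.length := by omega
    have hlet : w = w.set i w[i] := (set_letter w i hiw).symm
    have hget : w[i]?.getD true = w[i] := by simp [hiw]
    rw [hget]
    by_cases hb : w[i] = true
    · rw [if_pos hb, if_pos]
      rw [hlet, hb, hconst]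
    · rw [if_neg hb, if_neg]
      rw [Bool.not_eq_true] at hb
      rw [hlet, hb, hconst]
      exact Ne.symm hne
  | succ m ih =>
    intro f hf hfi hpos hcard
    obtain ⟨w₀, hw₀, hne⟩ := hfi
    have hχ := hS.level hf (f (w₀.set i true))
    set χ : List Bool → K := fun w => if f w = f (w₀.set i true) then 1 else 0 with hχd
    have hχi : Dep n χ i := ⟨w₀, hw₀, by
      simp only [hχd]
      rw [if_pos trivial, if_neg (Ne.symm hne)]
      exact one_ne_zero⟩
    have h01 : ∀ w, χ w = 0 ∨ χ w = 1 := by
      intro w
      simp only [hχd]
      split_ifs
      · exact Or.inr rfl
      · exact Or.inl rfl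
    have hsub : ∀ j, Dep n χ j → Dep n f j := by
      rintro j ⟨w, hw, h⟩
      refine ⟨w, hw, fun h1 => h ?_⟩
      simp only [hχd, h1]
    have hχcard : (others n χ i).card ≤ m + 1 := by
      refine (Finset.card_le_card ?_).trans hcard
      intro j hj
      obtain ⟨h1, h2, h3⟩ := Finset.mem_filter.1 hj
      exact Finset.mem_filter.2 ⟨h1, h2, hsub j h3⟩
    have hposχ : ∀ j < n, Dep n χ j → 0 < p j ∧ 0 < q j := fun j hj h => hpos j hj (hsub j h)
    by_cases hE : ∃ j < n, j ≠ i ∧ Dep n χ j ∧ Dep n (eop (p j : K) (q j : K) j χ) i
    · obtain ⟨j, hj, hji, hdj, hdi⟩ := hE
      have hg := hS.tr j hj χ hχ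
      have hsub' : ∀ k, Dep n (eop (p j : K) (q j : K) j χ) k → k ≠ j ∧ Dep n χ k := by
        rintro k ⟨w, hw, h⟩
        have hkj : k ≠ j := by
          rintro rfl
          apply h
          simp only [eop, List.set_set]
        refine ⟨hkj, ?_⟩
        by_contra hk
        apply h
        simp only [eop]
        rw [set_comm w hkj, set_comm w hkj, set_comm w hkj, set_comm w hkj,
          indep_set hk (w := w.set j true) (by rw [List.length_set, hw]) true false,
          indep_set hk (w := w.set j false) (by rw [List.length_set, hw]) true false]
      refine ih _ hg hdi (fun k hk h => hposχ k hk (hsub' k h).2) ?_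
      have hlt : (others n (eop (p j : K) (q j : K) j χ) i).card < (others n χ i).card := by
        apply Finset.card_lt_card
        rw [Finset.ssubset_iff_of_subset]
        · refine ⟨j, Finset.mem_filter.2 ⟨Finset.mem_range.2 hj, hji, hdj⟩, fun h => ?_⟩
          exact (hsub' j (Finset.mem_filter.1 h).2.2).1 rfl
        · intro k hk
          obtain ⟨h1, h2, h3⟩ := Finset.mem_filter.1 hk
          exact Finset.mem_filter.2 ⟨h1, h2, (hsub' k h3).2⟩
      omega
    · push Not at hE
      -- the difference of the values is constant
      have hdiff : ∀ j < n, ¬ Dep n (fun w => χ (w.set i true) - χ (w.set i false)) j := by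
        rintro j hj ⟨w, hw, h⟩
        by_cases hji : j = i
        · subst hji
          apply h
          simp only [List.set_set]
        · by_cases hdj : Dep n χ j
          · have h1 := hE j hj hji hdj
            have h3 := indep_set h1 hw true false
            simp only [eop] at h3
            obtain ⟨hp, hq⟩ := hposχ j hj hdj
            apply h
            beta_reduce
            rw [set_comm w hji, set_comm w hji, set_comm w hji, set_comm w hji]
            have hp' : (p j : K) ≠ 0 := by exact_mod_cast hp.ne'
            have hq' : (q j : K) ≠ 0 := by exact_mod_cast hq.ne'
            have hpq : (p j : K) + q j ≠ 0 := by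
              have : p j + q j ≠ 0 := by omega
              exact_mod_cast this
            rcases h01 ((w.set i true).set j true) with a | a <;>
              rcases h01 ((w.set i true).set j false) with b | b <;>
              rcases h01 ((w.set i false).set j true) with c | c <;>
              rcases h01 ((w.set i false).set j false) with d | d <;>
              rw [a, b, c, d] at h3 <;> rw [a, b, c, d] <;>
              first
              | ring1
              | (exfalso; apply hp'; linear_combination h3)
              | (exfalso; apply hp'; linear_combination -h3)
              | (exfalso; apply hq'; linear_combination h3)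
              | (exfalso; apply hq'; linear_combination -h3)
              | (exfalso; apply hpq; linear_combination h3)
              | (exfalso; apply hpq; linear_combination -h3)
          · apply h
            beta_reduce
            rw [set_comm w hji, set_comm w hji, set_comm w hji, set_comm w hji,
              indep_set hdj (w := w.set i true) (by rw [List.length_set, hw]) true false,
              indep_set hdj (w := w.set i false) (by rw [List.length_set, hw]) true false]
      obtain ⟨w₁, hw₁, hne₁⟩ := hχi
      have hall : ∀ w : List Bool, w.length = n → χ (w.set i true) - χ (w.set i false) =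
          χ (w₁.set i true) - χ (w₁.set i false) := fun w hw => const_of_indep hdiff hw hw₁
      have hiw : ∀ w : List Bool, w.length = n → w = w.set i (w[i]?.getD true) := by
        intro w hw
        have hi' : i < w.length := by omega
        have hget : w[i]?.getD true = w[i] := by simp [hi']
        rw [hget, set_letter w i hi']
      have hone : (1 : K) ≠ 0 := one_ne_zero
      have htwo : (1 : K) + 1 ≠ 0 := by
        rw [one_add_one_eq_two]
        exact two_ne_zero
      rcases h01 (w₁.set i true) with a | a <;> rcases h01 (w₁.set i false) with b | b
      · exact absurd (a.trans b.symm) hne₁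
      · -- the complement
        have h3 : ∀ w : List Bool, w.length = n → χ (w.set i true) = 0 ∧
            χ (w.set i false) = 1 := by
          intro w hw
          have h4 := hall w hw
          rw [a, b] at h4
          rcases h01 (w.set i true) with c | c <;> rcases h01 (w.set i false) with d | d <;>
            rw [c, d] at h4
          · exfalso; apply hone; linear_combination h4
          · exact ⟨c, d⟩
          · exfalso; apply htwo; linear_combination h4
          · exfalso; apply hone; linear_combination h4
        refine hS.congr _ _ (fun w hw => ?_) (hS.add _ _ hS.one (hS.smul (-1) _ hχ))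
        obtain ⟨h4, h5⟩ := h3 w hw
        have h6 := hiw w hw
        rcases hb : w[i]?.getD true with _ | _
        · rw [hb] at h6
          rw [h6, h5]
          simp
        · rw [hb] at h6
          rw [h6, h4]
          simp
      · have h3 : ∀ w : List Bool, w.length = n → χ (w.set i true) = 1 ∧
            χ (w.set i false) = 0 := by
          intro w hw
          have h4 := hall w hw
          rw [a, b] at h4
          rcases h01 (w.set i true) with c | c <;> rcases h01 (w.set i false) with d | d <;>
            rw [c, d] at h4
          · exfalso; apply hone; linear_combination -h4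
          · exfalso; apply htwo; linear_combination -h4
          · exact ⟨c, d⟩
          · exfalso; apply hone; linear_combination -h4
        refine hS.congr _ _ (fun w hw => ?_) hχ
        obtain ⟨h4, h5⟩ := h3 w hw
        have h6 := hiw w hw
        rcases hb : w[i]?.getD true with _ | _
        · rw [hb] at h6
          rw [h6, h5]
          simp
        · rw [hb] at h6
          rw [h6, h4]
          simp
      · exact absurd (a.trans b.symm) hne₁

end

end Q56.PM
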