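import Pool.Agent.Q56.PC.Word

/-!
# Diagonal operators on the tensor product of several objects
-/

set_option autoImplicit false
set_option linter.unusedSectionVars false
set_option linter.unusedSimpArgs false
set_option backward.isDefEq.respectTransparency false
set_option backward.defeqAttrib.useBackward true

open CategoryTheory Limits MonoidalCategory
open Pool.Agent.Y112.SR Pool.Agent.Y112.KD Pool.Agent.Y112.SC Q20.Cp

namespace Q56.PM

universe v u w

open Functor.LaxMonoidal Functor.OplaxMonoidal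

section

variable {C : Type u} [Category.{v} C] [Preadditive C] [MonoidalCategory C] [SymmetricCategory C]
  {K : Type w} [Field K] (R : SuperRealisation C K)

/-- The symmetry is natural with respect to even operators. -/
lemma bx_braid2 (h2 : (2 : K) ≠ 0) {X Y : C} (b : R.H.obj X ⟶ R.H.obj X)
    (c : R.H.obj Y ⟶ R.H.obj Y)
    (hb : b ≫ R.par X = R.par X ≫ b) (hc : c ≫ R.par Y = R.par Y ≫ c) :
    bx R b c ≫ R.H.map (β_ X Y).hom = R.H.map (β_ X Y).hom ≫ bx R c b := by
  have h3 : (b ⊗ₘ c) ≫ (𝟙 _ + R.par X ▷ R.H.obj Y + R.H.obj X ◁ R.par Y - (R.par X ⊗ₘ R.par Y)) =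
      (𝟙 _ + R.par X ▷ R.H.obj Y + R.H.obj X ◁ R.par Y - (R.par X ⊗ₘ R.par Y)) ≫ (b ⊗ₘ c) := by
    simp only [Preadditive.sub_comp, Preadditive.add_comp, Preadditive.comp_sub,
      Preadditive.comp_add, Category.id_comp, Category.comp_id, ← tensorHom_id, ← id_tensorHom,
      tensorHom_comp_tensorHom, hb, hc]
  have h4 : (2 : K) • ((b ⊗ₘ c) ≫ μ R.H X Y ≫ R.H.map (β_ X Y).hom) =
      (2 : K) • (μ R.H X Y ≫ R.H.map (β_ X Y).hom ≫ δ R.H Y X ≫ (c ⊗ₘ b) ≫ μ R.H Y X) := by
    rw [← Linear.comp_smul, R.symm, ← Category.assoc (b ⊗ₘ c), h3, Category.assoc,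
      BraidedCategory.braiding_naturality_assoc]
    have h5 : (2 : K) • (μ R.H X Y ≫ R.H.map (β_ X Y).hom ≫ δ R.H Y X ≫ (c ⊗ₘ b) ≫ μ R.H Y X) =
        ((2 : K) • (μ R.H X Y ≫ R.H.map (β_ X Y).hom)) ≫ δ R.H Y X ≫ (c ⊗ₘ b) ≫ μ R.H Y X := by
      rw [Linear.smul_comp, Category.assoc]
    rw [h5, R.symm]
    simp only [Category.assoc, Functor.Monoidal.μ_δ_assoc]
  have h5 := congrArg (fun z => (2 : K)⁻¹ • z) h4
  simp only [smul_smul, inv_mul_cancel₀ h2, one_smul] at h5
  rw [bx, Category.assoc, Category.assoc, h5, bx, Functor.Monoidal.δ_μ_assoc]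

/-- The exchange of the last two factors. -/
def swap2 (Q X Y : C) : (Q ⊗ X) ⊗ Y ≅ (Q ⊗ Y) ⊗ X :=
  α_ Q X Y ≪≫ whiskerLeftIso Q (β_ X Y) ≪≫ (α_ Q Y X).symm

/-- Naturality in the last factor. -/
lemma bx_whiskerL {Q X X' : C} (ψ : X ⟶ X') (a : R.H.obj Q ⟶ R.H.obj Q)
    (b : R.H.obj X ⟶ R.H.obj X) (b' : R.H.obj X' ⟶ R.H.obj X')
    (h : b ≫ R.H.map ψ = R.H.map ψ ≫ b') :
    bx R a b ≫ R.H.map (Q ◁ ψ) = R.H.map (Q ◁ ψ) ≫ bx R a b' := by
  have h4 : R.H.map (Q ◁ ψ) = δ R.H Q X ≫ (R.H.obj Q ◁ R.H.map ψ) ≫ μ R.H Q X' := by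
    rw [Functor.Monoidal.map_whiskerLeft]
  rw [h4, bx, bx]
  simp only [Category.assoc, Functor.Monoidal.μ_δ_assoc]
  rw [← id_tensorHom, tensorHom_comp_tensorHom_assoc, h, Category.comp_id,
    tensorHom_comp_tensorHom_assoc, Category.id_comp]

/-- The exchange of the last two factors is natural with respect to even operators. -/
lemma bx_swap2 (h2 : (2 : K) ≠ 0) {Q X Y : C} (a : R.H.obj Q ⟶ R.H.obj Q)
    (b : R.H.obj X ⟶ R.H.obj X) (c : R.H.obj Y ⟶ R.H.obj Y)
    (hb : b ≫ R.par X = R.par X ≫ b) (hc : c ≫ R.par Y = R.par Y ≫ c) :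
    bx R (bx R a b) c ≫ R.H.map (swap2 Q X Y).hom =
      R.H.map (swap2 Q X Y).hom ≫ bx R (bx R a c) b := by
  have e1 : bx R a (bx R b c) ≫ R.H.map (Q ◁ (β_ X Y).hom) =
      R.H.map (Q ◁ (β_ X Y).hom) ≫ bx R a (bx R c b) :=
    bx_whiskerL R _ a _ _ (bx_braid2 R h2 b c hb hc)
  have e2 : R.H.map (swap2 Q X Y).hom = R.H.map (α_ Q X Y).hom ≫ R.H.map (Q ◁ (β_ X Y).hom) ≫
      R.H.map (α_ Q Y X).inv := by
    rw [swap2, Iso.trans_hom, Iso.trans_hom, Functor.map_comp, Functor.map_comp]
    rfl
  rw [e2, ← Category.assoc, bx_assoc]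
  simp only [Category.assoc]
  rw [← bx_assoc_inv, ← Category.assoc (bx R a (bx R b c)), e1, Category.assoc]

/-- Naturality in the first factor. -/
lemma bx_whisker {Q Q' X : C} (φ : Q ⟶ Q') (a : R.H.obj Q ⟶ R.H.obj Q)
    (a' : R.H.obj Q' ⟶ R.H.obj Q') (b : R.H.obj X ⟶ R.H.obj X)
    (h : a ≫ R.H.map φ = R.H.map φ ≫ a') :
    bx R a b ≫ R.H.map (φ ▷ X) = R.H.map (φ ▷ X) ≫ bx R a' b := by
  have h4 : R.H.map (φ ▷ X) = δ R.H Q X ≫ (R.H.map φ ▷ R.H.obj X) ≫ μ R.H Q' X := by
    rw [Functor.Monoidal.map_whiskerRight]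
  rw [h4, bx, bx]
  simp only [Category.assoc, Functor.Monoidal.μ_δ_assoc]
  rw [← tensorHom_id, tensorHom_comp_tensorHom_assoc, h, Category.comp_id,
    tensorHom_comp_tensorHom_assoc, Category.id_comp]

/-- The tensor product of a list of objects. -/
def tens : List C → C
  | [] => 𝟙_ C
  | X :: L => tens L ⊗ X

/-- The operator on `H(tens L)` which is `f w` on the tensors of parities `w` (`w` is a list of the
same length as `L`; `true` is even, `false` is odd). -/
noncomputable def parOp : ∀ (L : List C) (_ : List Bool → K),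
    (R.H.obj (tens L) ⟶ R.H.obj (tens L))
  | [], f => f [] • 𝟙 _
  | X :: L, f => bx R (parOp L fun w => f (true :: w)) (pe R X) +
      bx R (parOp L fun w => f (false :: w)) (po R X)

lemma parOp_nil (f : List Bool → K) : parOp R [] f = f [] • 𝟙 _ := rfl

lemma parOp_cons (X : C) (L : List C) (f : List Bool → K) : parOp R (X :: L) f =
    bx R (parOp R L fun w => f (true :: w)) (pe R X) +
      bx R (parOp R L fun w => f (false :: w)) (po R X) := rfl

lemma parOp_congr (L : List C) {f g : List Bool → K} (h : ∀ w, w.length = L.length → f w = g w) :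
    parOp R L f = parOp R L g := by
  induction L generalizing f g with
  | nil => rw [parOp_nil, parOp_nil, h [] rfl]
  | cons X L ih =>
    rw [parOp_cons, parOp_cons, ih fun w hw => h (true :: w) (by simp [hw]),
      ih fun w hw => h (false :: w) (by simp [hw])]

lemma parOp_add (L : List C) (f g : List Bool → K) :
    parOp R L (fun w => f w + g w) = parOp R L f + parOp R L g := by
  induction L generalizing f g with
  | nil => rw [parOp_nil, parOp_nil, parOp_nil, add_smul]
  | cons X L ih =>
    rw [parOp_cons, parOp_cons, parOp_cons, ih (fun w => f (true :: w)) fun w => g (true :: w),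
      ih (fun w => f (false :: w)) fun w => g (false :: w), bx_add_left, bx_add_left]
    abel

lemma parOp_smul (L : List C) (c : K) (f : List Bool → K) :
    parOp R L (fun w => c * f w) = c • parOp R L f := by
  induction L generalizing f with
  | nil => rw [parOp_nil, parOp_nil, smul_smul]
  | cons X L ih =>
    rw [parOp_cons, parOp_cons, ih fun w => f (true :: w), ih fun w => f (false :: w),
      bx_smul_left, bx_smul_left, smul_add]

lemma parOp_const (h2 : (2 : K) ≠ 0) (L : List C) (c : K) : parOp R L (fun _ => c) = c • 𝟙 _ := by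
  induction L with
  | nil => rfl
  | cons X L ih =>
    rw [parOp_cons, ih, bx_smul_left, bx_smul_left, ← smul_add, ← bx_add_right, pe_add_po R h2,
      bx_one]
    rfl

lemma bx_zero_right' {Q X : C} (a : R.H.obj Q ⟶ R.H.obj Q) :
    bx R a (0 : R.H.obj X ⟶ R.H.obj X) = 0 := by
  have := bx_smul_right R (0 : K) a (0 : R.H.obj X ⟶ R.H.obj X)
  simpa using this

lemma parOp_comp (h2 : (2 : K) ≠ 0) (L : List C) (f g : List Bool → K) :
    parOp R L f ≫ parOp R L g = parOp R L fun w => f w * g w := by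
  induction L generalizing f g with
  | nil =>
    rw [parOp_nil, parOp_nil, parOp_nil, Linear.smul_comp, Linear.comp_smul, Category.id_comp,
      smul_smul]
  | cons X L ih =>
    rw [parOp_cons, parOp_cons, parOp_cons, Preadditive.add_comp, Preadditive.comp_add,
      Preadditive.comp_add, bx_comp, bx_comp, bx_comp, bx_comp, pe_pe R h2, po_po R h2, pe_po,
      po_pe, bx_zero_right', bx_zero_right', add_zero, zero_add, ih, ih]

lemma parOp_par (L : List C) (f : List Bool → K) :
    parOp R L f ≫ R.par (tens L) = R.par (tens L) ≫ parOp R L f := by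
  induction L generalizing f with
  | nil => rw [parOp_nil, Linear.smul_comp, Linear.comp_smul, Category.id_comp, Category.comp_id]
  | cons X L ih =>
    have h : R.par (tens (X :: L)) = bx R (R.par (tens L)) (R.par X) := (bx_par R _ _).symm
    rw [h, parOp_cons, Preadditive.add_comp, Preadditive.comp_add, bx_comp, bx_comp, bx_comp,
      bx_comp, ih, ih, pe_comm, po_comm]

/-- Insert a letter in a given place. -/
def ins : ℕ → Bool → List Bool → List Bool
  | 0, b, w => b :: w
  | _ + 1, b, [] => [b]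
  | i + 1, b, c :: w => c :: ins i b w

lemma ins_zero (b : Bool) (w : List Bool) : ins 0 b w = b :: w := rfl

lemma ins_succ (i : ℕ) (b c : Bool) (w : List Bool) : ins (i + 1) b (c :: w) = c :: ins i b w := rfl

lemma ins_erase (i : ℕ) (b : Bool) (w : List Bool) (hi : i < w.length) :
    ins i b (w.eraseIdx i) = w.set i b := by
  induction i generalizing w with
  | zero =>
    rcases w with _ | ⟨c, w⟩
    · simp at hi
    · rfl
  | succ i ih =>
    rcases w with _ | ⟨c, w⟩
    · simp at hi
    · rw [List.eraseIdx_cons_succ, ins_succ, ih w (by simpa using hi)]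
      rfl

/-- A factor can be moved to the end. -/
theorem exists_move (h2 : (2 : K) ≠ 0) (L : List C) (i : ℕ) (hi : i < L.length) :
    ∃ φ : tens L ≅ tens (L[i] :: L.eraseIdx i), ∀ f : List Bool → K,
      parOp R L f ≫ R.H.map φ.hom = R.H.map φ.hom ≫
        parOp R (L[i] :: L.eraseIdx i) fun v => f (ins i (v.headD true) v.tail) := by
  induction L generalizing i with
  | nil => simp at hi
  | cons X L ih =>
    rcases i with _ | i
    · refine ⟨Iso.refl _, fun f => ?_⟩
      have h1 : R.H.map (Iso.refl (tens (X :: L))).hom = 𝟙 _ := CategoryTheory.Functor.map_id _ _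
      have h3 : parOp R (X :: L) (fun v => f (ins 0 (v.headD true) v.tail)) =
          parOp R (X :: L) f := by
        apply parOp_congr
        rintro (_ | ⟨b, w⟩) hw
        · simp at hw
        · rfl
      change parOp R (X :: L) f ≫ R.H.map (Iso.refl (tens (X :: L))).hom =
        R.H.map (Iso.refl (tens (X :: L))).hom ≫
          parOp R (X :: L) (fun v => f (ins 0 (v.headD true) v.tail))
      rw [h1, h3, Category.comp_id, Category.id_comp]
    · obtain ⟨φ, hφ⟩ := ih i (by simpa using hi)
      have hi' : i < L.length := by simpa using hi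
      refine ⟨whiskerRightIso φ X ≪≫ swap2 (tens (L.eraseIdx i)) L[i] X, fun f => ?_⟩
      change parOp R (X :: L) f ≫
        R.H.map (whiskerRightIso φ X ≪≫ swap2 (tens (L.eraseIdx i)) L[i] X).hom =
        R.H.map (whiskerRightIso φ X ≪≫ swap2 (tens (L.eraseIdx i)) L[i] X).hom ≫
          parOp R (L[i] :: X :: L.eraseIdx i) (fun v => f (ins (i + 1) (v.headD true) v.tail))
      rw [Iso.trans_hom, Functor.map_comp, whiskerRightIso_hom]
      have key : ∀ (g : List Bool → K) (p : R.H.obj X ⟶ R.H.obj X)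
          (_ : p ≫ R.par X = R.par X ≫ p),
          bx R (parOp R L g) p ≫ R.H.map (φ.hom ▷ X) ≫
            R.H.map (swap2 (tens (L.eraseIdx i)) L[i] X).hom =
          R.H.map (φ.hom ▷ X) ≫ R.H.map (swap2 (tens (L.eraseIdx i)) L[i] X).hom ≫
            (bx R (bx R (parOp R (L.eraseIdx i) fun w => g (ins i true w)) p) (pe R L[i]) +
              bx R (bx R (parOp R (L.eraseIdx i) fun w => g (ins i false w)) p) (po R L[i])) := by
        intro g p hp
        rw [← Category.assoc, bx_whisker R φ.hom _ _ p (hφ g), Category.assoc]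
        congr 1
        rw [parOp_cons, bx_add_left, Preadditive.add_comp, Preadditive.comp_add]
        congr 1
        · exact bx_swap2 R h2 _ _ _ (pe_comm R _) hp
        · exact bx_swap2 R h2 _ _ _ (po_comm R _) hp
      rw [parOp_cons R X L, Preadditive.add_comp, key _ _ (pe_comm R X), key _ _ (po_comm R X),
        ← Preadditive.comp_add, ← Preadditive.comp_add, Category.assoc]
      congr 2
      rw [parOp_cons, parOp_cons, parOp_cons, bx_add_left, bx_add_left]
      simp only [List.headD_cons, List.tail_cons, ins_succ]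
      abel

end

end Q56.PM
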