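import Pool.Agent.Q56.PC.Ext
import Pool.Agent.Q56.PM.Move
import Pool.Agent.Q56.PM.Comb

/-!
# One algebraic function of the parities of several objects
-/

set_option autoImplicit false
set_option linter.unusedSectionVars false
set_option linter.unusedSimpArgs false
set_option backward.isDefEq.respectTransparency false
set_option backward.defeqAttrib.useBackward true

open CategoryTheory Limits MonoidalCategory
open Pool.Agent.Y112.SR Pool.Agent.Y112.KD Pool.Agent.Y112.SC Q20.Cp Q56.PC

namespace Q56.PM

universe v u w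

open Functor.LaxMonoidal Functor.OplaxMonoidal

section

variable {C : Type u} [Category.{v} C] [Preadditive C] [Linear ℚ C] [MonoidalCategory C]
  [MonoidalPreadditive C] [MonoidalLinear ℚ C] [SymmetricCategory C]
  [RightRigidCategory C] {K : Type w} [Field K] {R : SuperRealisation C K}

/-- Transport of algebraic operators along an isomorphism. -/
lemma falg_iso {F : Subfield K} {X Y : C} (φ : X ≅ Y) {a : R.H.obj X ⟶ R.H.obj X}
    {a' : R.H.obj Y ⟶ R.H.obj Y} (h : a ≫ R.H.map φ.hom = R.H.map φ.hom ≫ a')
    (ha : a ∈ FAlg R F X) : a' ∈ FAlg R F Y := by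
  have h1 : R.H.map φ.inv ≫ a ≫ R.H.map φ.hom ∈ FAlg R F Y := by
    refine falg_ind (p := fun y => R.H.map φ.inv ≫ y ≫ R.H.map φ.hom ∈ FAlg R F Y) ?_ ?_ ?_ ha
    · intro c hc f
      rw [Linear.smul_comp, Linear.comp_smul, ← Functor.map_comp, ← Functor.map_comp]
      exact falg_smul hc (falg_map _)
    · rw [zero_comp, comp_zero]
      exact zero_mem _
    · intro x y hx hy
      rw [Preadditive.add_comp, Preadditive.comp_add]
      exact add_mem hx hy
  rwa [h, ← Category.assoc, ← Functor.map_comp, Iso.inv_hom_id, CategoryTheory.Functor.map_id,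
    Category.id_comp] at h1

lemma kalg_iso {X Y : C} (φ : X ≅ Y) {a : R.H.obj X ⟶ R.H.obj X}
    {a' : R.H.obj Y ⟶ R.H.obj Y} (h : a ≫ R.H.map φ.hom = R.H.map φ.hom ≫ a')
    (ha : a ∈ KAlg R X) : a' ∈ KAlg R Y := by
  rw [← falg_top] at ha ⊢
  exact falg_iso φ h ha

lemma kalg_iso_symm {X Y : C} (φ : X ≅ Y) {a : R.H.obj X ⟶ R.H.obj X}
    {a' : R.H.obj Y ⟶ R.H.obj Y} (h : a ≫ R.H.map φ.hom = R.H.map φ.hom ≫ a')
    (ha : a' ∈ KAlg R Y) : a ∈ KAlg R X := by
  refine kalg_iso φ.symm ?_ ha
  have h1 : R.H.map φ.symm.hom ≫ R.H.map φ.hom = 𝟙 _ := by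
    rw [← Functor.map_comp, Iso.symm_hom, Iso.inv_hom_id, CategoryTheory.Functor.map_id]
  have h2 : R.H.map φ.hom ≫ R.H.map φ.symm.hom = 𝟙 _ := by
    rw [← Functor.map_comp, Iso.symm_hom, Iso.hom_inv_id, CategoryTheory.Functor.map_id]
  calc a' ≫ R.H.map φ.symm.hom
      = (R.H.map φ.symm.hom ≫ R.H.map φ.hom) ≫ a' ≫ R.H.map φ.symm.hom := by
        rw [h1, Category.id_comp]
    _ = R.H.map φ.symm.hom ≫ (R.H.map φ.hom ≫ a') ≫ R.H.map φ.symm.hom := by
        simp only [Category.assoc]
    _ = R.H.map φ.symm.hom ≫ a ≫ R.H.map φ.hom ≫ R.H.map φ.symm.hom := by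
        rw [← h]; simp only [Category.assoc]
    _ = R.H.map φ.symm.hom ≫ a := by rw [h2, Category.comp_id]

/-- The partial trace over the last factor. -/
lemma PT_parOp (h2 : (2 : K) ≠ 0) (X : C) (L : List C) (f : List Bool → K) :
    PT R (X := X) (parOp R (X :: L) f) =
      parOp R L fun w => (evenDim R X : K) * f (true :: w) - (oddDim R X : K) * f (false :: w) := by
  have h1 : PT R (X := X) (parOp R (X :: L) f) =
      PT R (bx R (parOp R L fun w => f (true :: w)) (pe R X) +
        bx R (parOp R L fun w => f (false :: w)) (po R X)) := rfl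
  rw [h1, PT_add, PT_bx R h2, PT_bx R h2, trace_pe h2, trace_po h2, ← parOp_smul, ← parOp_smul,
    ← parOp_add]
  apply parOp_congr
  intro w _
  ring

/-- The dimensions of the even and odd parts of the objects in a list. -/
noncomputable def evd (R : SuperRealisation C K) (L : List C) (j : ℕ) : ℕ :=
  if h : j < L.length then evenDim R L[j] else 0

/-- The dimensions of the even and odd parts of the objects in a list. -/
noncomputable def odd (R : SuperRealisation C K) (L : List C) (j : ℕ) : ℕ :=
  if h : j < L.length then oddDim R L[j] else 0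

lemma kalg_tr (h2 : (2 : K) ≠ 0) (L : List C) {j : ℕ} (hj : j < L.length) {f : List Bool → K}
    (h : parOp R L f ∈ KAlg R (tens L)) :
    parOp R L (eop (evd R L j : K) (odd R L j : K) j f) ∈ KAlg R (tens L) := by
  obtain ⟨φ, hφ⟩ := exists_move R h2 L j hj
  have h1 := kalg_iso φ (hφ f) h
  have h3 := kalg_PT (R := R) (Q := tens (L.eraseIdx j)) (X := L[j]) h1
  have h4 : PT R (Q := tens (L.eraseIdx j)) (X := L[j])
      (parOp R (L[j] :: L.eraseIdx j) fun v => f (ins j (v.headD true) v.tail)) =
      parOp R (L.eraseIdx j) fun w =>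
        (evenDim R L[j] : K) * f (ins j true w) - (oddDim R L[j] : K) * f (ins j false w) :=
    PT_parOp h2 L[j] (L.eraseIdx j) _
  rw [h4] at h3
  refine kalg_iso_symm φ (hφ _) ?_
  have h5 : parOp R (L[j] :: L.eraseIdx j) (fun v =>
      eop (evd R L j : K) (odd R L j : K) j f (ins j (v.headD true) v.tail)) =
      bx R (parOp R (L.eraseIdx j) fun w =>
        (evenDim R L[j] : K) * f (ins j true w) - (oddDim R L[j] : K) * f (ins j false w))
        (𝟙 (R.H.obj L[j])) := by
    have h6 : ∀ b : Bool, parOp R (L.eraseIdx j) (fun w =>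
        eop (evd R L j : K) (odd R L j : K) j f (ins j b w)) =
        parOp R (L.eraseIdx j) fun w =>
        (evenDim R L[j] : K) * f (ins j true w) - (oddDim R L[j] : K) * f (ins j false w) := by
      intro b
      apply parOp_congr
      intro w hw
      have hw' : w.length = L.length - 1 := by rw [hw, List.length_eraseIdx_of_lt hj]
      have hset : ∀ c : Bool, (ins j b w).set j c = ins j c w := by
        intro c
        clear hw h3 h4 h1 hφ φ h
        have hjw : j ≤ w.length := by omega
        clear hw'
        clear hj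
        induction j generalizing w with
        | zero => rfl
        | succ j ih =>
          rcases w with _ | ⟨d, w⟩
          · simp at hjw
          · rw [ins_succ, ins_succ, List.set_cons_succ, ih w (by simpa using hjw)]
      simp only [eop, evd, odd, dif_pos hj, hset]
    rw [parOp_cons]
    simp only [List.headD_cons, List.tail_cons]
    rw [h6, h6, ← bx_add_right, pe_add_po R h2]
  rw [h5, ← falg_top] at *
  exact falg_bx h3 falg_one

/-- The algebraic functions of the parities. -/
lemma closed_alg (h2 : (2 : K) ≠ 0) (L : List C) :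
    Closed L.length (evd R L) (odd R L) fun f => parOp R L f ∈ KAlg R (tens L) where
  congr f g h hf := by
    have h1 := parOp_congr R L h
    rwa [← h1]
  one := by
    have h1 := parOp_const R h2 L (1 : K)
    rw [one_smul] at h1
    rw [h1]
    exact kalg_one
  add f g hf hg := by
    rw [parOp_add]
    exact add_mem hf hg
  smul c f hf := by
    rw [parOp_smul]
    exact Submodule.smul_mem _ _ hf
  mul f g hf hg := by
    rw [← parOp_comp R h2]
    exact kalg_comp hf hg
  tr j hj f hf := kalg_tr h2 L hj hf

end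

end Q56.PM
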