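import Pool.Agent.Q56.PM.Alg

/-!
# One function of the parities of several objects decides the sign conjecture for all of them
-/

set_option autoImplicit false
set_option linter.unusedSectionVars false
set_option linter.unusedSimpArgs false
set_option backward.isDefEq.respectTransparency false
set_option backward.defeqAttrib.useBackward true

open CategoryTheory Limits MonoidalCategory
open Pool.Agent.Y112.SR Pool.Agent.Y112.KD Pool.Agent.Y112.SC Q20.Cp Q56.PC

namespace Q56.PM

universe v u w

open Functor.LaxMonoidal Functor.OplaxMonoidal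

section

variable {C : Type u} [Category.{v} C] [Preadditive C] [Linear ℚ C] [MonoidalCategory C]
  [MonoidalPreadditive C] [MonoidalLinear ℚ C] [SymmetricCategory C]
  [RightRigidCategory C] {K : Type w} [Field K] {R : SuperRealisation C K}

/-- The total trace of a function of the parities. -/
noncomputable def trw (R : SuperRealisation C K) : ∀ (_ : List C) (_ : List Bool → K), K
  | [], f => f []
  | X :: L, f => (evenDim R X : K) * trw R L (fun w => f (true :: w)) -
      (oddDim R X : K) * trw R L (fun w => f (false :: w))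

lemma trw_sub (L : List C) (c d : K) (f g : List Bool → K) :
    trw R L (fun w => c * f w - d * g w) = c * trw R L f - d * trw R L g := by
  induction L generalizing f g with
  | nil => rfl
  | cons X L ih =>
    rw [trw, trw, trw, ih, ih]
    ring

/-- The trace of the operator of a function of the parities. -/
lemma trace_parOp (h2 : (2 : K) ≠ 0) (L : List C) (f : List Bool → K) :
    LinearMap.trace K (R.H.obj (tens L)) (parOp R L f ≫ R.par (tens L)).hom =
      trw R L f * LinearMap.trace K (R.H.obj (𝟙_ C)) (𝟙 (R.H.obj (𝟙_ C)) : _ ⟶ _).hom := by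
  induction L generalizing f with
  | nil =>
    have h : R.par (tens ([] : List C)) = 𝟙 _ := R.par_unit
    rw [h, Category.comp_id, parOp_nil, ModuleCat.hom_smul, map_smul, smul_eq_mul, trw]
    rfl
  | cons X L ih =>
    have h1 := trace_PT R (Q := tens L) (X := X) (𝟙 _) (parOp R (X :: L) f)
    rw [Category.id_comp, bx_one, Category.id_comp, PT_parOp h2] at h1
    refine h1.symm.trans ?_
    rw [ih, trw_sub, trw]

lemma trace_unit_ne : LinearMap.trace K (R.H.obj (𝟙_ C))
    (𝟙 (R.H.obj (𝟙_ C)) : R.H.obj (𝟙_ C) ⟶ R.H.obj (𝟙_ C)).hom ≠ 0 := by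
  have e : R.H.obj (𝟙_ C) ≅ 𝟙_ (ModuleCat.{w} K) := (Functor.Monoidal.εIso R.H).symm
  have e' : R.H.obj (𝟙_ C) ≃ₗ[K] K := e.toLinearEquiv
  have hfin := R.finite (𝟙_ C)
  have h1 : Module.finrank K (R.H.obj (𝟙_ C)) = 1 := by
    rw [e'.finrank_eq, Module.finrank_self]
  have h2 : (𝟙 (R.H.obj (𝟙_ C)) : R.H.obj (𝟙_ C) ⟶ R.H.obj (𝟙_ C)).hom = LinearMap.id := rfl
  rw [h2, LinearMap.trace_id, h1, Nat.cast_one]
  exact one_ne_zero

/-- Trace out the other factors. -/
lemma kalg_head (h2 : (2 : K) ≠ 0) (X : C) (L : List C) (g : List Bool → K)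
    (b : R.H.obj X ⟶ R.H.obj X) (hb : b ≫ R.par X = R.par X ≫ b)
    (h : bx R (parOp R L g) b ∈ KAlg R (tens (X :: L))) (hg : trw R L g ≠ 0) : b ∈ KAlg R X := by
  have h1 := kalg_iso (β_ (tens L) X) (bx_braid2 R h2 (parOp R L g) b (parOp_par R L g) hb) h
  have h3 := kalg_PT h1
  rw [PT_bx R h2, trace_parOp h2] at h3
  have hne := mul_ne_zero hg (trace_unit_ne (R := R))
  have h4 := Submodule.smul_mem _ (trw R L g * LinearMap.trace K (R.H.obj (𝟙_ C))
    (𝟙 (R.H.obj (𝟙_ C)) : R.H.obj (𝟙_ C) ⟶ R.H.obj (𝟙_ C)).hom)⁻¹ h3
  rwa [smul_smul, inv_mul_cancel₀ hne, one_smul] at h4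

open Classical in
/-- The function which is one if all letters with numbers in `J` are even, and zero otherwise. -/
noncomputable def ind (J : Set ℕ) (w : List Bool) : K :=
  if ∀ k ∈ J, k < w.length → w[k]?.getD true = true then 1 else 0

lemma ind_nil (J : Set ℕ) : ind (K := K) J [] = 1 := by
  rw [ind, if_pos]
  intro k _ h
  simp at h

lemma ind_true (J : Set ℕ) (w : List Bool) :
    ind (K := K) J (true :: w) = ind {k | k + 1 ∈ J} w := by
  rw [ind, ind]
  congr 1
  apply propext
  constructor
  · intro h k hk hkw
    have h1 := h (k + 1) hk (by simpa using hkw)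
    simpa using h1
  · rintro h (_ | k) hk hkw
    · rfl
    · have h1 := h k hk (by simpa using hkw)
      simpa using h1

lemma ind_false_mem {J : Set ℕ} (hJ : 0 ∈ J) (w : List Bool) :
    ind (K := K) J (false :: w) = 0 := by
  rw [ind, if_neg]
  intro h
  have h1 := h 0 hJ (by simp)
  simp at h1

lemma ind_false_not_mem {J : Set ℕ} (hJ : 0 ∉ J) (w : List Bool) :
    ind (K := K) J (false :: w) = ind {k | k + 1 ∈ J} w := by
  rw [ind, ind]
  congr 1
  apply propext
  constructor
  · intro h k hk hkw
    have h1 := h (k + 1) hk (by simpa using hkw)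
    simpa using h1
  · rintro h (_ | k) hk hkw
    · exact absurd hk hJ
    · have h1 := h k hk (by simpa using hkw)
      simpa using h1

/-- The numerical condition. -/
def Num (R : SuperRealisation C K) (L : List C) (J : Set ℕ) : Prop :=
  ∀ (i : ℕ) (hi : i < L.length), (i ∈ J → evenDim R L[i] ≠ 0) ∧
    (i ∉ J → evenDim R L[i] ≠ oddDim R L[i])

lemma Num.tail {X : C} {L : List C} {J : Set ℕ} (h : Num R (X :: L) J) :
    Num R L {k | k + 1 ∈ J} := by
  intro i hi
  exact h (i + 1) (by simpa using hi)

lemma trw_ind (hK : CharZero K) {L : List C} {J : Set ℕ} (h : Num R L J) :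
    trw R L (ind J) ≠ 0 := by
  induction L generalizing J with
  | nil =>
    rw [trw, ind_nil]
    exact one_ne_zero
  | cons X L ih =>
    have h1 := ih h.tail
    have h3 := h 0 (by simp)
    by_cases hJ : 0 ∈ J
    · have h4 : trw R (X :: L) (ind J) = (evenDim R X : K) * trw R L (ind {k | k + 1 ∈ J}) := by
        rw [trw]
        simp only [ind_true, ind_false_mem hJ]
        have h5 : trw R L (fun _ => (0 : K)) = 0 := by
          have h6 := trw_sub (R := R) L 0 0 (fun _ => (0 : K)) fun _ => (0 : K)
          simpa using h6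
        rw [h5, mul_zero, sub_zero]
      rw [h4]
      refine mul_ne_zero ?_ h1
      exact_mod_cast h3.1 hJ
    · have h4 : trw R (X :: L) (ind J) =
          ((evenDim R X : K) - (oddDim R X : K)) * trw R L (ind {k | k + 1 ∈ J}) := by
        rw [trw]
        simp only [ind_true, ind_false_not_mem hJ]
        ring
      rw [h4]
      refine mul_ne_zero ?_ h1
      rw [sub_ne_zero]
      exact_mod_cast h3.2 hJ

/-- The even projector of one factor is algebraic. -/
lemma kalg_pe (h2 : (2 : K) ≠ 0) (hK : CharZero K) {L : List C} {J : Set ℕ} (h : Num R L J)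
    (hA : parOp R L (ind J) ∈ KAlg R (tens L)) {i : ℕ} (hi : i < L.length) (hiJ : i ∈ J) :
    pe R L[i] ∈ KAlg R L[i] := by
  induction L generalizing J i with
  | nil => simp at hi
  | cons X L ih =>
    rcases i with _ | i
    · have h1 : parOp R (X :: L) (ind J) =
          bx R (parOp R L (ind {k | k + 1 ∈ J})) (pe R X) := by
        rw [parOp_cons]
        simp only [ind_true, ind_false_mem hiJ]
        have h5 : parOp R L (fun _ => (0 : K)) = 0 := by
          rw [parOp_const R h2, zero_smul]
        rw [h5, bx_zero_left, add_zero]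
      rw [h1] at hA
      exact kalg_head h2 X L _ _ (pe_comm R X) hA (trw_ind hK h.tail)
    · have h1 := kalg_PT (R := R) (Q := tens L) (X := X) hA
      rw [PT_parOp h2] at h1
      refine ih h.tail ?_ (by simpa using hi) hiJ
      have h3 := h 0 (by simp)
      by_cases hJ : 0 ∈ J
      · have h4 : parOp R L (fun w => (evenDim R X : K) * ind J (true :: w) -
            (oddDim R X : K) * ind J (false :: w)) =
            (evenDim R X : K) • parOp R L (ind {k | k + 1 ∈ J}) := by
          rw [← parOp_smul]
          apply parOp_congr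
          intro w _
          rw [ind_true, ind_false_mem hJ, mul_zero, sub_zero]
        rw [h4] at h1
        have hne : (evenDim R X : K) ≠ 0 := by exact_mod_cast h3.1 hJ
        have h5 := Submodule.smul_mem _ (evenDim R X : K)⁻¹ h1
        rwa [smul_smul, inv_mul_cancel₀ hne, one_smul] at h5
      · have h4 : parOp R L (fun w => (evenDim R X : K) * ind J (true :: w) -
            (oddDim R X : K) * ind J (false :: w)) =
            ((evenDim R X : K) - (oddDim R X : K)) • parOp R L (ind {k | k + 1 ∈ J}) := by
          rw [← parOp_smul]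
          apply parOp_congr
          intro w _
          rw [ind_true, ind_false_not_mem hJ]
          ring
        rw [h4] at h1
        have hne : (evenDim R X : K) - (oddDim R X : K) ≠ 0 := by
          rw [sub_ne_zero]
          exact_mod_cast h3.2 hJ
        have h5 := Submodule.smul_mem _ ((evenDim R X : K) - (oddDim R X : K))⁻¹ h1
        rwa [smul_smul, inv_mul_cancel₀ hne, one_smul] at h5

lemma cplus_of_pe (hC : RationalUnit C) {M : C} (h : pe R M ∈ KAlg R M) : R.CPlus M := by
  by_contra hC'
  exact exists_pe_of_not R hC hC' h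

lemma pe_of_cplus {M : C} (h : R.CPlus M) : pe R M ∈ FAlg R ⊥ M := by
  have hK := R_charZero R
  rw [cplus_iff] at h
  obtain ⟨g, hg⟩ := h
  have h3 : pe R M = R.H.map ((2 : ℚ)⁻¹ • (𝟙 M + g)) := by
    rw [R_smul, Functor.map_add, hg, CategoryTheory.Functor.map_id, pe]
    push_cast
    rfl
  rw [h3]
  exact falg_map _

/-- The product of the letters in a set. -/
lemma alg_ind (h2 : (2 : K) ≠ 0) (L : List C) (J : Set ℕ)
    (h : ∀ i ∈ J, i < L.length → parOp R L (fun w => if w[i]?.getD true = true then 1 else 0) ∈
      KAlg R (tens L)) : parOp R L (ind J) ∈ KAlg R (tens L) := by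
  classical
  have hS := closed_alg (R := R) h2 L
  have key : ∀ m ≤ L.length, parOp R L (ind {k | k ∈ J ∧ k < m}) ∈ KAlg R (tens L) := by
    intro m
    induction m with
    | zero =>
      intro _
      refine hS.congr _ _ (fun w _ => ?_) hS.one
      rw [ind, if_pos]
      rintro k ⟨_, hk⟩ _
      omega
    | succ m ih =>
      intro hm
      have h1 := ih (by omega)
      by_cases hmJ : m ∈ J
      · refine hS.congr _ _ (fun w hw => ?_) (hS.mul _ _ h1 (h m hmJ (by omega)))
        simp only [ind]
        by_cases hb : w[m]?.getD true = true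
        · rw [if_pos hb, mul_one]
          congr 1
          apply propext
          constructor
          · rintro h3 k ⟨hk, hkm⟩ hkw
            by_cases hkm' : k = m
            · rw [hkm']; exact hb
            · exact h3 k ⟨hk, by omega⟩ hkw
          · rintro h3 k ⟨hk, hkm⟩ hkw
            exact h3 k ⟨hk, by omega⟩ hkw
        · rw [if_neg hb, mul_zero, if_neg]
          intro h3
          exact hb (h3 m ⟨hmJ, by omega⟩ (by omega))
      · refine hS.congr _ _ (fun w hw => ?_) h1
        simp only [ind]
        congr 1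
        apply propext
        constructor
        · rintro h3 k ⟨hk, hkm⟩ hkw
          refine h3 k ⟨hk, ?_⟩ hkw
          have : k ≠ m := fun h4 => hmJ (h4 ▸ hk)
          omega
        · rintro h3 k ⟨hk, hkm⟩ hkw
          exact h3 k ⟨hk, by omega⟩ hkw
  refine hS.congr _ _ (fun w hw => ?_) (key L.length le_rfl)
  simp only [ind]
  congr 1
  apply propext
  constructor
  · rintro h3 k hk hkw
    exact h3 k ⟨hk, by omega⟩ hkw
  · rintro h3 k ⟨hk, hkm⟩ hkw
    exact h3 k hk hkw

/-- A function of the parities of objects with the sign conjecture is algebraic. -/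
lemma falg_parOp {F : Subfield K} (h2 : (2 : K) ≠ 0) (L : List C) (f : List Bool → K)
    (hf : ∀ w, f w ∈ F)
    (h : ∀ (i : ℕ) (hi : i < L.length), Dep L.length f i → pe R L[i] ∈ FAlg R F L[i]) :
    parOp R L f ∈ FAlg R F (tens L) := by
  have hK := R_charZero R
  induction L generalizing f with
  | nil => exact falg_smul (hf _) falg_one
  | cons X L ih =>
    have hb : ∀ b : Bool, parOp R L (fun w => f (b :: w)) ∈ FAlg R F (tens L) := by
      intro b
      refine ih _ (fun w => hf _) fun i hi hd => ?_
      obtain ⟨w, hw, hne⟩ := hd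
      exact h (i + 1) (by simpa using hi) ⟨b :: w, by simpa using hw, by simpa using hne⟩
    rw [parOp_cons]
    by_cases hd : Dep (X :: L).length f 0
    · have hpe : pe R X ∈ FAlg R F X := h 0 (by simp) hd
      have hpo : po R X ∈ FAlg R F X := by
        have h3 : po R X = 𝟙 _ - pe R X := by rw [← pe_add_po R h2 X]; abel
        rw [h3]
        exact sub_mem falg_one hpe
      exact add_mem (falg_bx (hb true) hpe) (falg_bx (hb false) hpo)
    · have h3 : parOp R L (fun w => f (false :: w)) = parOp R L fun w => f (true :: w) := by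
        apply parOp_congr
        intro w hw
        have h4 := indep_set hd (w := true :: w) (by simp [hw]) false true
        simpa using h4
      rw [h3, ← bx_add_right, pe_add_po R h2]
      exact falg_bx (hb true) falg_one

lemma dep_ind {n : ℕ} {J : Set ℕ} {i : ℕ} (h : Dep n (ind (K := K) J) i) : i ∈ J := by
  classical
  by_contra hi
  obtain ⟨w, hw, hne⟩ := h
  apply hne
  simp only [ind]
  congr 1
  apply propext
  have hk : ∀ (a b : Bool), (∀ k ∈ J, k < (w.set i a).length → (w.set i a)[k]?.getD true = true) →
      ∀ k ∈ J, k < (w.set i b).length → (w.set i b)[k]?.getD true = true := by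
    intro a b h1 k hk hkw
    have hki : i ≠ k := fun h3 => hi (h3 ▸ hk)
    have h3 := h1 k hk (by simpa using hkw)
    rw [List.getElem?_set_ne hki] at h3 ⊢
    exact h3
  exact ⟨hk true false, hk false true⟩

/-- **One function of the parities of the factors decides the sign conjecture for all the factors on
the parities of which it depends.** -/
theorem several_tfae (hC : RationalUnit C) (L : List C) (f : List Bool → K)
    (hL : ∀ (i : ℕ) (hi : i < L.length), (Dep L.length f i → evenDim R L[i] ≠ 0 ∧
      oddDim R L[i] ≠ 0) ∧ (¬ Dep L.length f i → evenDim R L[i] ≠ oddDim R L[i])) : List.TFAE [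
    parOp R L f ∈ KAlg R (tens L),
    ∀ (i : ℕ) (hi : i < L.length), Dep L.length f i → R.CPlus L[i],
    ∀ g : List Bool → ℚ, (∀ i < L.length, Dep L.length g i → Dep L.length f i) →
      ∃ x : tens L ⟶ tens L, R.H.map x = parOp R L fun w => (g w : K)] := by
  have hK := R_charZero R
  have h2 : (2 : K) ≠ 0 := two_ne_zero
  set J : Set ℕ := {i | Dep L.length f i} with hJ
  have hN : Num R L J := fun i hi => ⟨fun h => ((hL i hi).1 h).1, fun h => (hL i hi).2 h⟩
  tfae_have 1 → 2 := by
    intro h i hi hd
    have hS := closed_alg (R := R) h2 L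
    have hlet : ∀ j ∈ J, j < L.length →
        parOp R L (fun w => if w[j]?.getD true = true then 1 else 0) ∈ KAlg R (tens L) := by
      intro j hj hj'
      refine hS.letter hj' _ f h hj (fun k hk hd => ?_) le_rfl
      obtain ⟨h3, h4⟩ := (hL k hk).1 hd
      rw [evd, odd, dif_pos hk, dif_pos hk]
      exact ⟨Nat.pos_of_ne_zero h3, Nat.pos_of_ne_zero h4⟩
    exact cplus_of_pe hC (kalg_pe h2 hK hN (alg_ind h2 L J hlet) hi hd)
  tfae_have 2 → 3 := by
    intro h g hg
    apply exists_of_falg_bot
    refine falg_parOp h2 L _ (fun w => SubfieldClass.ratCast_mem _ _) fun i hi hd => ?_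
    refine pe_of_cplus (h i hi (hg i hi ?_))
    obtain ⟨w, hw, hne⟩ := hd
    exact ⟨w, hw, fun h3 => hne (congrArg (fun q : ℚ => (q : K)) h3)⟩
  tfae_have 3 → 2 := by
    classical
    intro h i hi hd
    obtain ⟨x, hx⟩ := h (ind (K := ℚ) J) fun j hj hdj => dep_ind hdj
    have h3 : parOp R L (ind J) ∈ KAlg R (tens L) := by
      have h4 : parOp R L (ind J) = parOp R L fun w => ((ind (K := ℚ) J w : ℚ) : K) := by
        apply parOp_congr
        intro w _
        simp only [ind]
        split_ifs <;> simp
      rw [h4, ← hx]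
      exact kalg_map x
    exact cplus_of_pe hC (kalg_pe h2 hK hN h3 hi hd)
  tfae_have 2 → 1 := by
    intro h
    rw [← falg_top]
    refine falg_parOp h2 L f (fun w => Subfield.mem_top _) fun i hi hd => ?_
    rw [falg_top]
    obtain ⟨g, hg⟩ := exists_of_falg_bot R (pe_of_cplus (h i hi hd))
    rw [← hg]
    exact kalg_map g
  tfae_finish

end

end Q56.PM
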